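import Mathlib
import Pool.Agent.W622.SC.Stmts

/-! SC-WIND: the winding number homomorphism (MP_88597d_gt). -/

set_option autoImplicit false
set_option linter.all false

open unitInterval Topology ContinuousMap

namespace Pool.Agent.W344.SC.Wind

open Pool.Agent.W622.SC

theorem cov : IsCoveringMap ((↑) : ℝ → Cir) := AddCircle.isCoveringMap_coe (1 : ℝ)

theorem int_of_eq {a b : ℝ} (h : (a : Cir) = (b : Cir)) : ∃ n : ℤ, (n : ℝ) = a - b := by
  have h1 : ((a - b : ℝ) : Cir) = 0 := by rw [AddCircle.coe_sub, h, sub_self]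
  rw [AddCircle.coe_eq_zero_iff] at h1
  obtain ⟨n, hn⟩ := h1
  exact ⟨n, by rw [← hn]; simp⟩

theorem lift_end {z z' : Cir} (γ : Path z z') (l : C(I, ℝ)) (hl : ∀ s, ((l s : ℝ) : Cir) = γ s)
    (c0 : ℝ) (h0 : (c0 : Cir) = z) :
    ((cov.monodromy (Path.Homotopic.Quotient.mk γ) ⟨c0, h0⟩ : _) : ℝ) = c0 + (l 1 - l 0) := by
  let Γ : C(I, ℝ) := ⟨fun s => l s + (c0 - l 0), by fun_prop⟩
  have h1 : Γ = cov.liftPath (γ : C(I, Cir)) c0 (γ.source.trans h0.symm) := by
    refine (cov.eq_liftPath_iff' _).mpr ⟨funext fun s => ?_, ?_⟩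
    · show ((l s + (c0 - l 0) : ℝ) : Cir) = γ s
      rw [AddCircle.coe_add, AddCircle.coe_sub, hl, hl, h0, γ.source, sub_self, add_zero]
    · show l 0 + (c0 - l 0) = c0
      ring
  have h2 : ((cov.monodromy (Path.Homotopic.Quotient.mk γ) ⟨c0, h0⟩ : _) : ℝ) =
      cov.liftPath (γ : C(I, Cir)) c0 (γ.source.trans h0.symm) 1 := rfl
  rw [h2, ← h1]
  show l 1 + (c0 - l 0) = _
  ring

theorem exists_int {z : Cir} (g : Path.Homotopic.Quotient z z) (c0 : ℝ) (h0 : (c0 : Cir) = z) :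
    ∃ n : ℤ, (n : ℝ) = ((cov.monodromy g ⟨c0, h0⟩ : _) : ℝ) - c0 := by
  refine int_of_eq ?_
  have := (cov.monodromy g ⟨c0, h0⟩).2
  rw [Set.mem_preimage, Set.mem_singleton_iff] at this
  rw [this, h0]

/-- the winding number of a class -/
noncomputable def W {z : Cir} (c0 : ℝ) (h0 : (c0 : Cir) = z) (g : Path.Homotopic.Quotient z z) : ℤ :=
  (exists_int g c0 h0).choose

theorem W_spec {z : Cir} (c0 : ℝ) (h0 : (c0 : Cir) = z) (g : Path.Homotopic.Quotient z z) :
    ((W c0 h0 g : ℤ) : ℝ) = ((cov.monodromy g ⟨c0, h0⟩ : _) : ℝ) - c0 :=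
  (exists_int g c0 h0).choose_spec

theorem monodromy_shift {z : Cir} (g : Path.Homotopic.Quotient z z) (c c' : ℝ)
    (h : (c : Cir) = z) (h' : (c' : Cir) = z) :
    ((cov.monodromy g ⟨c, h⟩ : _) : ℝ) - c = ((cov.monodromy g ⟨c', h'⟩ : _) : ℝ) - c' := by
  induction g using Path.Homotopic.Quotient.ind with
  | mk γ =>
    obtain ⟨l, hl, _⟩ := cov.exists_path_lifts (γ : C(I, Cir)) c (γ.source.trans h.symm)
    have hl' : ∀ s, ((l s : ℝ) : Cir) = γ s := fun s => congrFun hl s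
    rw [lift_end γ l hl' c h, lift_end γ l hl' c' h']
    ring

theorem W_trans {z : Cir} (c0 : ℝ) (h0 : (c0 : Cir) = z) (g g' : Path.Homotopic.Quotient z z) :
    W c0 h0 (g.trans g') = W c0 h0 g + W c0 h0 g' := by
  have h1 := W_spec c0 h0 (g.trans g')
  rw [cov.monodromy_trans_apply] at h1
  have h2 := W_spec c0 h0 g
  have h3 := W_spec c0 h0 g'
  have h4 := monodromy_shift g' ((cov.monodromy g ⟨c0, h0⟩ : _) : ℝ) c0
    (cov.monodromy g ⟨c0, h0⟩).2 h0
  have h5 : ((W c0 h0 (g.trans g') : ℤ) : ℝ) = ((W c0 h0 g + W c0 h0 g' : ℤ) : ℝ) := by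
    rw [h1]
    push_cast
    rw [h2, h3, ← h4]
    ring
  exact_mod_cast h5

theorem map_trans' {X Y : Type} [TopologicalSpace X] [TopologicalSpace Y] (f : C(X, Y)) {x : X}
    (g g' : Path.Homotopic.Quotient x x) :
    (g.trans g').map f = (g.map f).trans (g'.map f) := by
  induction g using Path.Homotopic.Quotient.ind with
  | mk γ =>
    induction g' using Path.Homotopic.Quotient.ind with
    | mk γ' =>
      rw [← Path.Homotopic.Quotient.mk_trans, ← Path.Homotopic.Quotient.mk_map,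
        ← Path.Homotopic.Quotient.mk_map, ← Path.Homotopic.Quotient.mk_map,
        ← Path.Homotopic.Quotient.mk_trans, Path.map_trans]

theorem main : S_wind := by
  intro X _ x₀ ht
  obtain ⟨c0, h0⟩ := QuotientAddGroup.mk_surjective (ht x₀)
  have h0' : (c0 : Cir) = ht x₀ := h0
  refine ⟨MonoidHom.mk' (fun g => Multiplicative.ofAdd
    (W c0 h0' (Path.Homotopic.Quotient.map (FundamentalGroup.toPath g) ht))) ?_, ?_⟩
  · intro a b
    show Multiplicative.ofAdd (W c0 h0' (Path.Homotopic.Quotient.map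
      (Path.Homotopic.Quotient.trans (FundamentalGroup.toPath b) (FundamentalGroup.toPath a)) ht)) = _
    rw [map_trans', W_trans, add_comm, ofAdd_add]
  · intro γ l hl
    show l 1 - l 0 = ((W c0 h0' (Path.Homotopic.Quotient.mk (γ.map ht.continuous)) : ℤ) : ℝ)
    rw [W_spec, lift_end (γ.map ht.continuous) l hl c0 h0']
    ring

end Pool.Agent.W344.SC.Wind
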