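import Mathlib
import Pool.Agent.W622.SC.Stmts
import Pool.Agent.W344.SC.Wind

/-! SC-LOOPZ and SC-LOOP2: loops that lift to the cyclic covers (MP_88597d_gt). -/

set_option autoImplicit false
set_option linter.all false

open unitInterval Topology ContinuousMap

namespace Pool.Agent.W344.SC.Loop

open Pool.Agent.W622.SC Pool.Agent.W344.SC.Wind

theorem incr_eq {z z' : Cir} (γ : Path z z') (l l' : C(I, ℝ)) (hl : ∀ s, ((l s : ℝ) : Cir) = γ s)
    (hl' : ∀ s, ((l' s : ℝ) : Cir) = γ s) : l 1 - l 0 = l' 1 - l' 0 := by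
  have h0 : ((l 0 : ℝ) : Cir) = z := (hl 0).trans γ.source
  have h1 := lift_end γ l hl (l 0) h0
  have h2 := lift_end γ l' hl' (l 0) h0
  rw [h1] at h2
  linarith

variable {E : Type} [TopologicalSpace E]

theorem fiber (f : C(E, E)) {J : Type} [TopologicalSpace J] [DiscreteTopology J] (ν : J → J)
    (x : E) (y : MT (lvl f ν)) (h : MT.down f ν y = MT.mk f (x, 0)) :
    ∃ j, y = MT.mk (lvl f ν) ((x, j), 0) := by
  obtain ⟨⟨⟨x', j⟩, u⟩, rfl⟩ := MT.mk_surj (lvl f ν) y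
  rw [MT.down_mk, MT.mk_eq_iff] at h
  have h01 : ((0 : I) : I) ≠ 1 := by
    intro h
    have := congrArg Subtype.val h
    simp at this
  have h2 : MTnf f (x, 0) = (x, 0) := if_neg h01
  rw [h2] at h
  by_cases hu : u = 1
  · subst hu
    have h3 : MTnf f (x', 1) = (f x', 0) := if_pos rfl
    rw [h3] at h
    have h4 : f x' = x := congrArg Prod.fst h
    refine ⟨ν j, ?_⟩
    rw [MT.glue, lvl_apply, h4]
  · have h3 : MTnf f (x', u) = (x', u) := if_neg hu
    rw [h3] at h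
    have h4 : x' = x := congrArg Prod.fst h
    have h5 : u = 0 := congrArg Prod.snd h
    subst h4 h5
    exact ⟨j, rfl⟩

theorem sh_bij : Function.Bijective sh :=
  ⟨fun a b h => by simpa [sh] using h, fun a => ⟨a - 1, by simp [sh]⟩⟩

theorem not_bij : Function.Bijective not :=
  ⟨fun a b h => by simpa using h, fun a => ⟨!a, by simp⟩⟩

theorem htZ_coe (f : C(E, E)) (y : MT (lvl f sh)) :
    ((MT.htZ f y : ℝ) : Cir) = MT.ht f (MT.down f sh y) := by
  obtain ⟨⟨⟨x', j⟩, u⟩, rfl⟩ := MT.mk_surj (lvl f sh) y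
  rw [MT.down_mk, MT.htZ_mk, MT.ht_mk, AddCircle.coe_add]
  have : (((j : ℤ) : ℝ) : Cir) = 0 := by
    rw [AddCircle.coe_eq_zero_iff]
    exact ⟨j, by simp⟩
  rw [this, zero_add]

theorem ht2_add (f : C(E, E)) (y : MT (lvl f not)) :
    MT.ht2 f y + MT.ht2 f y = MT.ht f (MT.down f not y) := by
  obtain ⟨⟨⟨x', b⟩, u⟩, rfl⟩ := MT.mk_surj (lvl f not) y
  rw [MT.down_mk, MT.ht2_mk, MT.ht_mk, ← AddCircle.coe_add, add_halves, AddCircle.coe_add]
  have : (((if b = true then (1 : ℝ) else 0) : ℝ) : Cir) = 0 := by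
    rw [AddCircle.coe_eq_zero_iff]
    cases b
    · exact ⟨0, by simp⟩
    · exact ⟨1, by simp⟩
  rw [this, add_zero]

theorem mainZ : S_cov → S_loopZ := by
  intro hcov E _ f x hx γ l hl
  have cv := hcov E ℤ f sh sh_bij
  have key : ∀ Γ : C(I, MT (lvl f sh)), (∀ s, MT.down f sh (Γ s) = γ s) →
      MT.htZ f (Γ 1) - MT.htZ f (Γ 0) = l 1 - l 0 := by
    intro Γ hΓ
    exact incr_eq (γ.map (MT.ht f).continuous) ((MT.htZ f).comp Γ) l
      (fun s => by
        show ((MT.htZ f (Γ s) : ℝ) : Cir) = MT.ht f (γ s)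
        rw [htZ_coe, hΓ]) hl
  constructor
  · rintro ⟨γ', hγ'⟩
    have h := key (γ' : C(I, MT (lvl f sh))) hγ'
    have h1 : MT.htZ f ((γ' : C(I, MT (lvl f sh))) 1) = MT.htZ f ((γ' : C(I, MT (lvl f sh))) 0) := by
      show MT.htZ f (γ' 1) = MT.htZ f (γ' 0)
      rw [γ'.source, γ'.target]
    rw [h1, sub_self] at h
    linarith
  · intro hll
    have h0 : (γ : C(I, MT f)) 0 = MT.down f sh (MT.mk (lvl f sh) ((x, 0), 0)) := by
      show γ 0 = _
      rw [γ.source, MT.down_mk]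
    obtain ⟨Γ, hΓ, hΓ0⟩ := cv.exists_path_lifts (γ : C(I, MT f)) _ h0
    have hΓ' : ∀ s, MT.down f sh (Γ s) = γ s := fun s => congrFun hΓ s
    have h1 : MT.down f sh (Γ 1) = MT.mk f (x, 0) := by rw [hΓ', γ.target]
    obtain ⟨n, hn⟩ := fiber f sh x (Γ 1) h1
    have h2 := key Γ hΓ'
    rw [hn, hΓ0, MT.htZ_mk, MT.htZ_mk, hll] at h2
    have h3 : n = 0 := by
      have : ((n : ℤ) : ℝ) = 0 := by
        simpa using h2
      exact_mod_cast this
    subst h3
    exact ⟨⟨Γ, hΓ0, hn⟩, hΓ'⟩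

theorem main2 : S_cov → S_loop2 := by
  intro hcov E _ f x hx γ l hl
  have cv := hcov E Bool f not not_bij
  have key : ∀ (Γ : C(I, MT (lvl f not))) (l' : C(I, ℝ)),
      (∀ s, ((l' s : ℝ) : Cir) = MT.ht2 f (Γ s)) → (∀ s, MT.down f not (Γ s) = γ s) →
      2 * (l' 1 - l' 0) = l 1 - l 0 := by
    intro Γ l' hl' hΓ
    have h1 := incr_eq (γ.map (MT.ht f).continuous) ⟨fun s => l' s + l' s, by fun_prop⟩ l
      (fun s => by
        show ((l' s + l' s : ℝ) : Cir) = MT.ht f (γ s)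
        rw [AddCircle.coe_add, hl', ht2_add, hΓ]) hl
    have h2 : (l' 1 + l' 1) - (l' 0 + l' 0) = l 1 - l 0 := h1
    linarith
  have lift : ∀ (Γ : C(I, MT (lvl f not))), ∃ l' : C(I, ℝ),
      ∀ s, ((l' s : ℝ) : Cir) = MT.ht2 f (Γ s) := by
    intro Γ
    obtain ⟨c0, h0⟩ := QuotientAddGroup.mk_surjective (MT.ht2 f (Γ 0))
    obtain ⟨l', h1, _⟩ := cov.exists_path_lifts ((MT.ht2 f).comp Γ) c0 h0.symm
    exact ⟨l', fun s => congrFun h1 s⟩
  constructor
  · rintro ⟨γ', hγ'⟩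
    obtain ⟨l', hl'⟩ := lift (γ' : C(I, MT (lvl f not)))
    have h1 := key _ l' hl' hγ'
    have h2 : ((l' 1 : ℝ) : Cir) = ((l' 0 : ℝ) : Cir) := by
      rw [hl', hl']
      show MT.ht2 f (γ' 1) = MT.ht2 f (γ' 0)
      rw [γ'.source, γ'.target]
    obtain ⟨m, hm⟩ := int_of_eq h2
    exact ⟨m, by rw [← h1, hm]⟩
  · rintro ⟨m, hm⟩
    have h0 : (γ : C(I, MT f)) 0 = MT.down f not (MT.mk (lvl f not) ((x, false), 0)) := by
      show γ 0 = _
      rw [γ.source, MT.down_mk]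
    obtain ⟨Γ, hΓ, hΓ0⟩ := cv.exists_path_lifts (γ : C(I, MT f)) _ h0
    have hΓ' : ∀ s, MT.down f not (Γ s) = γ s := fun s => congrFun hΓ s
    have h1 : MT.down f not (Γ 1) = MT.mk f (x, 0) := by rw [hΓ', γ.target]
    obtain ⟨b, hb⟩ := fiber f not x (Γ 1) h1
    obtain ⟨l', hl'⟩ := lift Γ
    have h2 := key Γ l' hl' hΓ'
    have h3 : l' 1 = l' 0 + m := by linarith
    have h4 : MT.ht2 f (Γ 1) = MT.ht2 f (Γ 0) := by
      rw [← hl', ← hl', h3, AddCircle.coe_add]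
      have : (((m : ℤ) : ℝ) : Cir) = 0 := by
        rw [AddCircle.coe_eq_zero_iff]
        exact ⟨m, by simp⟩
      rw [this, add_zero]
    cases b
    · exact ⟨⟨Γ, hΓ0, hb⟩, hΓ'⟩
    · exfalso
      rw [hb, hΓ0, MT.ht2_mk, MT.ht2_mk] at h4
      obtain ⟨k, hk⟩ := int_of_eq h4
      simp only [if_true, Set.Icc.coe_zero, zero_add, Bool.false_eq_true, if_false,
        add_zero, zero_div, sub_zero] at hk
      have h5 : (2 * k : ℤ) = 1 := by
        have : (2 : ℝ) * k = 1 := by rw [hk]; norm_num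
        exact_mod_cast this
      omega

end Pool.Agent.W344.SC.Loop
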