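import Mathlib
import Pool.Agent.W622.SC.Stmts
import Pool.Agent.W344.SC.Loop

/-! SC-COND: the effect of h : X → X₂ on fundamental groups (MP_88597d_gt). -/

set_option autoImplicit false
set_option linter.all false

open unitInterval Topology ContinuousMap

namespace Pool.Agent.W344.SC.Cond

open Pool.Agent.W622.SC Pool.Agent.W344.SC.Wind Pool.Agent.W344.SC.Loop

open CategoryTheory in
/-- homotopy equivalences are surjective on loops -/
theorem surj_loops {X Y : Type} [TopologicalSpace X] [TopologicalSpace Y] (h : C(X, Y)) (g : C(Y, X))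
    (h1 : (g.comp h).Homotopic (ContinuousMap.id X)) (h2 : (h.comp g).Homotopic (ContinuousMap.id Y))
    (x₀ : X) (δ : Path (h x₀) (h x₀)) : ∃ γ : Path x₀ x₀, (γ.map h.continuous).Homotopic δ := by
  let e : FundamentalGroupoid X ≌ FundamentalGroupoid Y :=
    CategoryTheory.Equivalence.mk (FundamentalGroupoid.map h) (FundamentalGroupoid.map g)
      (by simpa only [FundamentalGroupoid.map_id, FundamentalGroupoid.map_comp]
        using (asIso (FundamentalGroupoidFunctor.homotopicMapsNatIso h1.some)).symm)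
      (by simpa only [FundamentalGroupoid.map_id, FundamentalGroupoid.map_comp]
        using asIso (FundamentalGroupoidFunctor.homotopicMapsNatIso h2.some))
  have hfull : (FundamentalGroupoid.map h).Full := (inferInstance : e.functor.Full)
  obtain ⟨q, hq⟩ := (FundamentalGroupoid.map h).map_surjective
    (X := (⟨x₀⟩ : FundamentalGroupoid X)) (Y := (⟨x₀⟩ : FundamentalGroupoid X))
    (Path.Homotopic.Quotient.mk δ)
  obtain ⟨γ, rfl⟩ := Path.Homotopic.Quotient.mk_surjective q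
  refine ⟨γ, ?_⟩
  rw [← Path.Homotopic.Quotient.eq]
  exact hq

/-- existence of lifts -/
theorem lift_ex (c : C(I, Cir)) : ∃ l : C(I, ℝ), ∀ s, ((l s : ℝ) : Cir) = c s := by
  obtain ⟨c0, h0⟩ := QuotientAddGroup.mk_surjective (c 0)
  obtain ⟨l', h1, _⟩ := cov.exists_path_lifts c c0 h0.symm
  exact ⟨l', fun s => congrFun h1 s⟩

/-- uniqueness of increments -/
theorem incr (l l' : C(I, ℝ)) (h : ∀ s, ((l s : ℝ) : Cir) = ((l' s : ℝ) : Cir)) :
    l 1 - l 0 = l' 1 - l' 0 :=
  incr_eq (⟨⟨fun s => ((l' s : ℝ) : Cir), by fun_prop⟩, rfl, rfl⟩ : Path ((l' 0 : ℝ) : Cir)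
    ((l' 1 : ℝ) : Cir)) l l' h (fun _ => rfl)

/-- increments are invariant under free homotopies of loops -/
theorem incr_homotopy (F : C(I × I, Cir)) (hF : ∀ t, F (t, 0) = F (t, 1)) (l l' : C(I, ℝ))
    (hl : ∀ s, ((l s : ℝ) : Cir) = F (0, s)) (hl' : ∀ s, ((l' s : ℝ) : Cir) = F (1, s)) :
    l 1 - l 0 = l' 1 - l' 0 := by
  let L : C(I × I, ℝ) := cov.liftHomotopy F l (fun a => (hl a).symm)
  have hL : ∀ t s, ((L (t, s) : ℝ) : Cir) = F (t, s) := fun t s =>
    congrFun (cov.liftHomotopy_lifts F l (fun a => (hl a).symm)) (t, s)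
  have hL0 : ∀ s, L (0, s) = l s := fun s => cov.liftHomotopy_zero F l (fun a => (hl a).symm) s
  let D : C(I, ℝ) := ⟨fun t => L (t, 1) - L (t, 0), by fun_prop⟩
  have hD : D 1 - D 0 = (ContinuousMap.const I (0 : ℝ)) 1 - (ContinuousMap.const I (0 : ℝ)) 0 := by
    refine incr D (ContinuousMap.const I 0) fun t => ?_
    show ((L (t, 1) - L (t, 0) : ℝ) : Cir) = ((0 : ℝ) : Cir)
    rw [AddCircle.coe_sub, hL, hL, hF, sub_self, AddCircle.coe_zero]
  have hD' : (L (1, 1) - L (1, 0)) - (L (0, 1) - L (0, 0)) = 0 := by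
    have : D 1 - D 0 = 0 := by rw [hD]; simp
    exact this
  have h2 : L (1, 1) - L (1, 0) = l' 1 - l' 0 :=
    incr ⟨fun s => L (1, s), by fun_prop⟩ l' (fun s => by
      show ((L (1, s) : ℝ) : Cir) = _
      rw [hL, hl'])
  rw [hL0, hL0] at hD'
  linarith

theorem main : S_cond := by
  intro X Xk _ _ x₀ ht hk pk h φ hφ hx hpk hhom hequiv
  obtain ⟨K⟩ := hhom
  obtain ⟨g, g1, g2⟩ := hequiv
  -- (a) winding numbers of hk ∘ h ∘ γ and of ht ∘ γ
  have keya : ∀ (γ : Path x₀ x₀) (m l : C(I, ℝ)), (∀ s, ((m s : ℝ) : Cir) = hk (h (γ s))) →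
      (∀ s, ((l s : ℝ) : Cir) = ht (γ s)) → m 1 - m 0 = l 1 - l 0 := by
    intro γ m l hm hl
    refine incr_homotopy ⟨fun z => K (z.1, γ z.2), by fun_prop⟩ (fun t => ?_) m l (fun s => ?_)
      (fun s => ?_)
    · show K (t, γ 0) = K (t, γ 1)
      rw [γ.source, γ.target]
    · show _ = K (0, γ s)
      rw [K.apply_zero, hm]
      rfl
    · show _ = K (1, γ s)
      rw [K.apply_one, hl]
  -- (b) doubling
  have keyb : ∀ (c : I → Xk) (n l : C(I, ℝ)), (∀ s, ((n s : ℝ) : Cir) = hk (c s)) →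
      (∀ s, ((l s : ℝ) : Cir) = ht (pk (c s))) → l 1 - l 0 = 2 * (n 1 - n 0) := by
    intro c n l hn hl
    have h1 := incr l ⟨fun s => n s + n s, by fun_prop⟩ (fun s => by
      show _ = ((n s + n s : ℝ) : Cir)
      rw [hl, hpk, AddCircle.coe_add, hn])
    have h2 : l 1 - l 0 = (n 1 + n 1) - (n 0 + n 0) := h1
    linarith
  have toAdd_inj : ∀ a b : Multiplicative ℤ,
      ((Multiplicative.toAdd a : ℤ) : ℝ) = ((Multiplicative.toAdd b : ℤ) : ℝ) → a = b := by
    intro a b hab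
    have : Multiplicative.toAdd a = Multiplicative.toAdd b := by exact_mod_cast hab
    exact Multiplicative.toAdd.injective this
  constructor
  · intro γ
    obtain ⟨l, hl⟩ := lift_ex ⟨fun s => ht (γ s), by fun_prop⟩
    obtain ⟨n, hn⟩ := lift_ex ⟨fun s => hk (h (γ s)), by fun_prop⟩
    obtain ⟨l', hl'⟩ := lift_ex ⟨fun s => ht (pk (h (γ s))), by fun_prop⟩
    have e1 := hφ γ l hl
    have e2 := hφ (((γ.map h.continuous).map pk.continuous).cast hx hx) l' hl'
    have e3 := keyb (fun s => h (γ s)) n l' hn hl'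
    have e4 := keya γ n l hn hl
    apply toAdd_inj
    rw [← e2, toAdd_pow, e3, e4, e1]
    simp
  · intro δ
    obtain ⟨n, hn⟩ := lift_ex ⟨fun s => hk (δ s), by fun_prop⟩
    have keyc : ∀ (γ : Path x₀ x₀), (γ.map h.continuous).Homotopic δ → ∀ m : C(I, ℝ),
        (∀ s, ((m s : ℝ) : Cir) = hk (h (γ s))) → m 1 - m 0 = n 1 - n 0 := by
      rintro γ ⟨H⟩ m hm
      refine incr_homotopy ⟨fun z => hk (H z), by fun_prop⟩ (fun t => ?_) m n (fun s => ?_)
        (fun s => ?_)
      · show hk (H (t, 0)) = hk (H (t, 1))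
        rw [H.source, H.target]
      · show _ = hk (H (0, s))
        rw [H.apply_zero, hm]
        rfl
      · show _ = hk (H (1, s))
        rw [H.apply_one, hn]
        rfl
    constructor
    · rintro ⟨γ, hγ, hpγ⟩
      obtain ⟨l, hl⟩ := lift_ex ⟨fun s => ht (γ s), by fun_prop⟩
      have e1 := hφ γ l hl
      rw [hγ, toAdd_one, Int.cast_zero] at e1
      have e2 := keyb δ n l hn (fun s => by rw [hpγ]; exact hl s)
      obtain ⟨γ', hγ'⟩ := surj_loops h g g1 g2 x₀ δ
      refine ⟨γ', ?_, hγ'⟩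
      obtain ⟨l', hl'⟩ := lift_ex ⟨fun s => ht (γ' s), by fun_prop⟩
      obtain ⟨m, hm⟩ := lift_ex ⟨fun s => hk (h (γ' s)), by fun_prop⟩
      have e3 := keya γ' m l' hm hl'
      have e4 := keyc γ' hγ' m hm
      have e5 := hφ γ' l' hl'
      apply toAdd_inj
      rw [← e5, toAdd_one, Int.cast_zero]
      linarith
    · rintro ⟨γ, hγ, hγδ⟩
      refine ⟨(δ.map pk.continuous).cast hx hx, ?_, fun s => rfl⟩
      obtain ⟨l, hl⟩ := lift_ex ⟨fun s => ht (γ s), by fun_prop⟩
      obtain ⟨m, hm⟩ := lift_ex ⟨fun s => hk (h (γ s)), by fun_prop⟩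
      obtain ⟨l', hl'⟩ := lift_ex ⟨fun s => ht (pk (δ s)), by fun_prop⟩
      have e1 := hφ γ l hl
      rw [hγ, toAdd_one, Int.cast_zero] at e1
      have e2 := keyb δ n l' hn hl'
      have e3 := keya γ m l hm hl
      have e4 := keyc γ hγδ m hm
      have e5 := hφ ((δ.map pk.continuous).cast hx hx) l' hl'
      apply toAdd_inj
      rw [← e5, toAdd_one, Int.cast_zero]
      linarith

end Pool.Agent.W344.SC.Cond
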