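import Mathlib
import Pool.Agent.W622.SC.Stmts

/-! SC-COV: covers of mapping tori (MP_88597d_gt). -/

set_option autoImplicit false
set_option linter.all false

open unitInterval Topology ContinuousMap

namespace Pool.Agent.W344.SC.Cov

open Pool.Agent.W622.SC

variable {E J : Type} [TopologicalSpace E] [TopologicalSpace J] [DiscreteTopology J]
  (f : C(E, E)) (ν : J → J) (a : I)

theorem nf_one (x : E) : MTnf f (x, 1) = (f x, 0) := if_pos rfl

theorem nf_ne {x : E} {u : I} (h : u ≠ 1) : MTnf f (x, u) = (x, u) := if_neg h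

/-- the label of a point -/
def P (j : J) (z : (E × J) × I) : Prop := (z.2 < a ∧ z.1.2 = j) ∨ (a < z.2 ∧ ν z.1.2 = j)

/-- base set -/
def V : Set (MT f) := MT.mk f '' {z | z.2 ≠ a}

/-- the sheets -/
def U (j : J) : Set (MT (lvl f ν)) := MT.mk (lvl f ν) '' {z | P ν a j z}

variable {a}

theorem mem_V (h0 : 0 < a) (h1 : a < 1) (x : E) (u : I) : MT.mk f (x, u) ∈ V f a ↔ u ≠ a := by
  constructor
  · rintro ⟨⟨x', u'⟩, hu', he⟩ rfl
    rw [MT.mk_eq_iff, nf_ne f h1.ne] at he
    by_cases h : u' = 1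
    · subst h
      rw [nf_one] at he
      exact h0.ne (congrArg Prod.snd he)
    · rw [nf_ne f h] at he
      exact hu' (congrArg Prod.snd he)
  · intro h
    exact ⟨(x, u), h, rfl⟩

theorem mem_U (h0 : 0 < a) (h1 : a < 1) (j : J) (x : E) (i : J) (u : I) :
    MT.mk (lvl f ν) ((x, i), u) ∈ U f ν a j ↔ P ν a j ((x, i), u) := by
  constructor
  · rintro ⟨⟨⟨x', i'⟩, u'⟩, hP, he⟩
    rw [MT.mk_eq_iff] at he
    have hP' : (u' < a ∧ i' = j) ∨ (a < u' ∧ ν i' = j) := hP
    show (u < a ∧ i = j) ∨ (a < u ∧ ν i = j)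
    by_cases h : u' = 1
    · subst h
      have hj : ν i' = j := by
        rcases hP' with h | h
        · exact absurd (h.1.trans h1) (lt_irrefl _)
        · exact h.2
      rw [nf_one, lvl_apply] at he
      by_cases h' : u = 1
      · subst h'
        rw [nf_one, lvl_apply] at he
        have : ν i' = ν i := congrArg (fun z => z.1.2) he
        exact Or.inr ⟨h1, this ▸ hj⟩
      · rw [nf_ne _ h'] at he
        have e1 : ν i' = i := congrArg (fun z => z.1.2) he
        have e2 : 0 = u := congrArg Prod.snd he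
        exact Or.inl ⟨e2 ▸ h0, e1 ▸ hj⟩
    · rw [nf_ne _ h] at he
      by_cases h' : u = 1
      · subst h'
        rw [nf_one, lvl_apply] at he
        have e1 : i' = ν i := congrArg (fun z => z.1.2) he
        have e2 : u' = 0 := congrArg Prod.snd he
        rcases hP' with h2 | h2
        · exact Or.inr ⟨h1, e1 ▸ h2.2⟩
        · rw [e2] at h2
          exact absurd (h0.trans h2.1) (lt_irrefl _)
      · rw [nf_ne _ h'] at he
        have e1 : i' = i := congrArg (fun z => z.1.2) he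
        have e2 : u' = u := congrArg Prod.snd he
        rw [← e1, ← e2]
        exact hP'
  · intro h
    exact ⟨_, h, rfl⟩

theorem isOpen_iff_mk {S : Set (MT f)} : IsOpen S ↔ IsOpen (MT.mk f ⁻¹' S) :=
  (MT.isQuotientMap f).isOpen_preimage.symm

theorem isOpen_V (h0 : 0 < a) (h1 : a < 1) : IsOpen (V f a) := by
  rw [isOpen_iff_mk]
  have : MT.mk f ⁻¹' V f a = {z | z.2 ≠ a} := by
    ext ⟨x, u⟩
    exact mem_V f h0 h1 x u
  rw [this]
  exact isOpen_ne_fun continuous_snd continuous_const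

theorem open_iff (hν : Function.Bijective ν) (h0 : 0 < a) (h1 : a < 1) (j : J) {W : Set (MT f)}
    (hW : W ⊆ V f a) : IsOpen W ↔ IsOpen (MT.down f ν ⁻¹' W ∩ U f ν a j) := by
  rw [isOpen_iff_mk, isOpen_iff_mk]
  constructor
  · intro h
    have e : MT.mk (lvl f ν) ⁻¹' (MT.down f ν ⁻¹' W ∩ U f ν a j) =
        ((fun z : (E × J) × I => ((z.1.1, z.2) : E × I)) ⁻¹' (MT.mk f ⁻¹' W)) ∩
        (({z | z.2 < a} ∩ {z | z.1.2 = j}) ∪ ({z | a < z.2} ∩ {z | ν z.1.2 = j})) := by
      ext ⟨⟨x, i⟩, u⟩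
      simp only [Set.mem_preimage, Set.mem_inter_iff, MT.down_mk, mem_U f ν h0 h1, P,
        Set.mem_union, Set.mem_ofPred_eq]
    rw [e]
    have hd : ∀ S : Set J, IsOpen {z : (E × J) × I | z.1.2 ∈ S} := fun S =>
      (isOpen_discrete S).preimage (continuous_snd.comp continuous_fst)
    refine (h.preimage (by fun_prop)).inter (((isOpen_lt continuous_snd continuous_const).inter
      (hd {j})).union ((isOpen_lt continuous_const continuous_snd).inter (hd {i | ν i = j})))
  · intro h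
    obtain ⟨j', hj'⟩ := hν.2 j
    have e : MT.mk f ⁻¹' W =
        ({z | z.2 < a} ∩ ((fun z : E × I => (((z.1, j), z.2) : (E × J) × I)) ⁻¹'
          (MT.mk (lvl f ν) ⁻¹' (MT.down f ν ⁻¹' W ∩ U f ν a j)))) ∪
        ({z | a < z.2} ∩ ((fun z : E × I => (((z.1, j'), z.2) : (E × J) × I)) ⁻¹'
          (MT.mk (lvl f ν) ⁻¹' (MT.down f ν ⁻¹' W ∩ U f ν a j)))) := by
      ext ⟨x, u⟩
      simp only [Set.mem_preimage, Set.mem_inter_iff, MT.down_mk, mem_U f ν h0 h1, P,
        Set.mem_union, Set.mem_ofPred_eq]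
      constructor
      · intro h
        have hu := (mem_V f h0 h1 x u).mp (hW h)
        rcases lt_or_gt_of_ne hu with h2 | h2
        · exact Or.inl ⟨h2, h, Or.inl ⟨h2, trivial⟩⟩
        · exact Or.inr ⟨h2, h, Or.inr ⟨h2, hj'⟩⟩
      · rintro (h | h)
        · exact h.2.1
        · exact h.2.1
    rw [e]
    exact ((isOpen_lt continuous_snd continuous_const).inter (h.preimage (by fun_prop))).union
      ((isOpen_lt continuous_const continuous_snd).inter (h.preimage (by fun_prop)))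

theorem inj_U (hν : Function.Bijective ν) (h0 : 0 < a) (h1 : a < 1) (j : J) :
    (U f ν a j).InjOn (MT.down f ν) := by
  rintro _ ⟨⟨⟨x, i⟩, u⟩, hP, rfl⟩ _ ⟨⟨⟨x', i'⟩, u'⟩, hP', rfl⟩ he
  rw [MT.down_mk, MT.down_mk, MT.mk_eq_iff] at he
  have hP : (u < a ∧ i = j) ∨ (a < u ∧ ν i = j) := hP
  have hP' : (u' < a ∧ i' = j) ∨ (a < u' ∧ ν i' = j) := hP'
  rw [MT.mk_eq_iff]
  have hj1 : ∀ {i : J}, ((1 : I) < a ∧ i = j) ∨ (a < (1 : I) ∧ ν i = j) → ν i = j := by
    rintro i (h | h)
    · exact absurd (h.1.trans h1) (lt_irrefl _)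
    · exact h.2
  have hj0 : ∀ {i : J}, ((0 : I) < a ∧ i = j) ∨ (a < (0 : I) ∧ ν i = j) → i = j := by
    rintro i (h | h)
    · exact h.2
    · exact absurd (h0.trans h.1) (lt_irrefl _)
  by_cases h : u = 1
  · subst h
    rw [nf_one] at he
    rw [nf_one, lvl_apply]
    by_cases h' : u' = 1
    · subst h'
      rw [nf_one] at he
      rw [nf_one, lvl_apply]
      show ((f x, ν i), (0 : I)) = ((f x', ν i'), 0)
      rw [hj1 hP, hj1 hP', show f x = f x' from congrArg Prod.fst he]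
    · rw [nf_ne _ h'] at he
      rw [nf_ne _ h']
      have e2 : 0 = u' := congrArg Prod.snd he
      subst e2
      show ((f x, ν i), (0 : I)) = ((x', i'), 0)
      rw [hj1 hP, hj0 hP', show f x = x' from congrArg Prod.fst he]
  · rw [nf_ne _ h] at he
    rw [nf_ne _ h]
    by_cases h' : u' = 1
    · subst h'
      rw [nf_one] at he
      rw [nf_one, lvl_apply]
      have e2 : u = 0 := congrArg Prod.snd he
      subst e2
      show ((x, i), (0 : I)) = ((f x', ν i'), 0)
      rw [hj0 hP, hj1 hP', show x = f x' from congrArg Prod.fst he]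
    · rw [nf_ne _ h'] at he
      rw [nf_ne _ h']
      have e1 : x = x' := congrArg Prod.fst he
      have e2 : u = u' := congrArg Prod.snd he
      subst e1 e2
      rcases hP with hP | hP <;> rcases hP' with hP' | hP'
      · have e3 : i = i' := hP.2.trans (show i' = j from hP'.2).symm
        rw [e3]
      · exact absurd (hP.1.trans hP'.1) (lt_irrefl _)
      · exact absurd (hP.1.trans hP'.1) (lt_irrefl _)
      · rw [hν.1 (hP.2.trans hP'.2.symm)]

theorem main : S_cov := by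
  intro E J _ _ _ f ν hν
  rcases isEmpty_or_nonempty J with hJ | ⟨⟨j0⟩⟩
  · have : IsEmpty (MT (lvl f ν)) := by
      refine ⟨fun y => ?_⟩
      obtain ⟨z, _⟩ := MT.mk_surj (lvl f ν) y
      exact hJ.false z.1.2
    exact IsCoveringMap.of_isEmpty (MT.down f ν)
  have hne : Nonempty (MT f → MT (lvl f ν)) :=
    ⟨fun y => MT.mk (lvl f ν) (((Function.surjInv (MT.mk_surj f) y).1, j0),
      (Function.surjInv (MT.mk_surj f) y).2)⟩
  have hJne : Nonempty J := ⟨j0⟩
  have key : ∀ (a : I), 0 < a → a < 1 → ∀ y ∈ V f a,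
      IsEvenlyCovered (MT.down f ν) y (MT.down f ν ⁻¹' {y}) := by
    intro a h0 h1 y hy
    let t : Bundle.Trivialization J (MT.down f ν) :=
      IsOpen.trivializationDiscrete (f := MT.down f ν) (U f ν a) (V f a) (isOpen_V f h0 h1)
        (fun j W hW => open_iff f ν hν h0 h1 j hW) (inj_U f ν hν h0 h1) (by
          rintro j _ ⟨⟨x, u⟩, hu, rfl⟩
          have hu' : u ≠ a := hu
          rcases lt_or_gt_of_ne hu' with h2 | h2
          · exact ⟨MT.mk (lvl f ν) ((x, j), u), ⟨_, Or.inl ⟨h2, rfl⟩, rfl⟩, rfl⟩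
          · obtain ⟨j', hj'⟩ := hν.2 j
            exact ⟨MT.mk (lvl f ν) ((x, j'), u), ⟨_, Or.inr ⟨h2, hj'⟩, rfl⟩, rfl⟩) (by
          intro j j' hjj
          rw [Function.onFun, Set.disjoint_left]
          rintro _ ⟨⟨⟨x, i⟩, u⟩, hP, rfl⟩ hP'
          rw [mem_U f ν h0 h1] at hP'
          have hP : (u < a ∧ i = j) ∨ (a < u ∧ ν i = j) := hP
          have hP' : (u < a ∧ i = j') ∨ (a < u ∧ ν i = j') := hP'
          rcases hP with hP | hP <;> rcases hP' with hP' | hP'
          · exact hjj (hP.2.symm.trans hP'.2)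
          · exact absurd (hP.1.trans hP'.1) (lt_irrefl _)
          · exact absurd (hP.1.trans hP'.1) (lt_irrefl _)
          · exact hjj (hP.2.symm.trans hP'.2)) (by
          intro y hy
          obtain ⟨⟨⟨x, i⟩, u⟩, rfl⟩ := MT.mk_surj (lvl f ν) y
          rw [Set.mem_preimage, MT.down_mk, mem_V f h0 h1] at hy
          rw [Set.mem_iUnion]
          rcases lt_or_gt_of_ne hy with h2 | h2
          · exact ⟨i, _, Or.inl ⟨h2, rfl⟩, rfl⟩
          · exact ⟨ν i, _, Or.inr ⟨h2, rfl⟩, rfl⟩)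
    have ht : y ∈ t.baseSet := hy
    exact (IsEvenlyCovered.of_trivialization ht).to_isEvenlyCovered_preimage
  intro y
  obtain ⟨⟨x, u⟩, rfl⟩ := MT.mk_surj f y
  let a2 : I := ⟨1 / 2, by norm_num, by norm_num⟩
  let a3 : I := ⟨1 / 3, by norm_num, by norm_num⟩
  have h20 : (0 : I) < a2 := by
    rw [← Subtype.coe_lt_coe]; show (0 : ℝ) < 1 / 2; norm_num
  have h21 : a2 < (1 : I) := by
    rw [← Subtype.coe_lt_coe]; show (1 / 2 : ℝ) < 1; norm_num
  have h30 : (0 : I) < a3 := by
    rw [← Subtype.coe_lt_coe]; show (0 : ℝ) < 1 / 3; norm_num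
  have h31 : a3 < (1 : I) := by
    rw [← Subtype.coe_lt_coe]; show (1 / 3 : ℝ) < 1; norm_num
  by_cases hu : u = a2
  · refine key a3 h30 h31 _ ((mem_V f h30 h31 x u).mpr ?_)
    rw [hu]
    intro h
    have := congrArg Subtype.val h
    norm_num [a2, a3] at this
  · exact key a2 h20 h21 _ ((mem_V f h20 h21 x u).mpr hu)

end Pool.Agent.W344.SC.Cov
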